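import Mathlib

/-!
# Counts of complete bipartite graphs in dyadic cells

`a x y` is a weight on pairs (the indicator function of a set of lattice points).  For a set `c` of
abscissas and sets `d₁, d₂, d₃` of ordinates `T a n c d₁ d₂ d₃` counts the complete bipartite
configurations with `n + 1` abscissas in `c` and one ordinate in each of `d₁, d₂, d₃`.
-/

namespace Pool.Agent.NSq
open Finset

/-! ### Dyadic cells -/

/-- the dyadic cell of level `s` and index `i` -/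
def cell (s i : ℕ) : Finset ℕ := Ico (i * 2 ^ s) ((i + 1) * 2 ^ s)

theorem mem_cell {s i x : ℕ} : x ∈ cell s i ↔ x / 2 ^ s = i := by
  have h : 0 < 2 ^ s := by positivity
  rw [cell, mem_Ico]
  constructor
  · rintro ⟨h1, h2⟩
    exact Nat.div_eq_of_lt_le h1 h2
  · rintro rfl
    exact ⟨Nat.div_mul_le_self _ _, Nat.lt_mul_of_div_lt (Nat.lt_succ_self _) h⟩

theorem card_cell (s i : ℕ) : (cell s i).card = 2 ^ s := by
  rw [cell, Nat.card_Ico, add_mul, one_mul, Nat.add_sub_cancel_left]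

theorem sum_split (f : ℕ → ℝ) (m q k : ℕ) : ∑ x ∈ Ico (m * q) ((m + k) * q), f x =
    ∑ r ∈ range k, ∑ x ∈ Ico ((m + r) * q) ((m + r + 1) * q), f x := by
  induction k with
  | zero => simp
  | succ k ih =>
    rw [sum_range_succ, ← ih, ← add_assoc, sum_Ico_consecutive]
    · exact Nat.mul_le_mul_right _ (by omega)
    · exact Nat.mul_le_mul_right _ (by omega)

theorem cell_split {s s' : ℕ} (h : s ≤ s') (i : ℕ) (f : ℕ → ℝ) :
    ∑ x ∈ cell s' i, f x =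
      ∑ r ∈ range (2 ^ (s' - s)), ∑ x ∈ cell s (i * 2 ^ (s' - s) + r), f x := by
  have h1 : (2 : ℕ) ^ s' = 2 ^ (s' - s) * 2 ^ s := by
    rw [← pow_add]; congr 1; omega
  have h2 := sum_split f (i * 2 ^ (s' - s)) (2 ^ s) (2 ^ (s' - s))
  unfold cell
  rw [← h2]
  congr 2
  · rw [h1, mul_assoc]
  · rw [h1]; ring

theorem index_split (g : ℕ → ℝ) (m k : ℕ) :
    ∑ i ∈ range (m * k), g i = ∑ i ∈ range m, ∑ r ∈ range k, g (i * k + r) := by
  induction m with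
  | zero => simp
  | succ m ih => rw [sum_range_succ, ← ih, add_mul, one_mul, sum_range_add]

/-! ### Counts -/

variable (a : ℕ → ℕ → ℝ) (n : ℕ)

/-- number of abscissas in `c` which belong to the three rows -/
def Z (c : Finset ℕ) (y₁ y₂ y₃ : ℕ) : ℝ := ∑ x ∈ c, a x y₁ * a x y₂ * a x y₃

def T (c d₁ d₂ d₃ : Finset ℕ) : ℝ :=
  ∑ y₁ ∈ d₁, ∑ y₂ ∈ d₂, ∑ y₃ ∈ d₃, (Z a c y₁ y₂ y₃) ^ (n + 1)

/-- number of ordinates in `d` which belong to all columns -/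
def W (d : Finset ℕ) (x : Fin (n + 1) → ℕ) : ℝ := ∑ y ∈ d, ∏ b, a (x b) y

variable {a n}

theorem T_swap (c d₁ d₂ d₃ : Finset ℕ) : T a n c d₁ d₂ d₃ =
    ∑ x ∈ Fintype.piFinset (fun _ : Fin (n + 1) => c),
      W a n d₁ x * W a n d₂ x * W a n d₃ x := by
  have h1 : ∀ x : Fin (n + 1) → ℕ, W a n d₁ x * W a n d₂ x * W a n d₃ x =
      ∑ y₁ ∈ d₁, ∑ y₂ ∈ d₂, ∑ y₃ ∈ d₃, ∏ b, (a (x b) y₁ * a (x b) y₂ * a (x b) y₃) := by
    intro x
    unfold W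
    rw [sum_mul_sum, sum_mul]
    refine sum_congr rfl fun y₁ _ => ?_
    rw [sum_mul]
    refine sum_congr rfl fun y₂ _ => ?_
    rw [mul_sum]
    refine sum_congr rfl fun y₃ _ => ?_
    rw [prod_mul_distrib, prod_mul_distrib]
  simp only [h1]
  unfold T Z
  simp only [sum_pow']
  symm
  rw [sum_comm]
  refine sum_congr rfl fun y₁ _ => ?_
  rw [sum_comm]
  refine sum_congr rfl fun y₂ _ => ?_
  rw [sum_comm]

section
variable (ha : ∀ x y, 0 ≤ a x y)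
include ha

theorem Z_nonneg (c : Finset ℕ) (y₁ y₂ y₃ : ℕ) : 0 ≤ Z a c y₁ y₂ y₃ :=
  sum_nonneg fun _ _ => mul_nonneg (mul_nonneg (ha _ _) (ha _ _)) (ha _ _)

theorem T_nonneg (c d₁ d₂ d₃ : Finset ℕ) : 0 ≤ T a n c d₁ d₂ d₃ :=
  sum_nonneg fun _ _ => sum_nonneg fun _ _ => sum_nonneg fun _ _ =>
    pow_nonneg (Z_nonneg ha _ _ _ _) _

theorem W_nonneg (d : Finset ℕ) (x : Fin (n + 1) → ℕ) : 0 ≤ W a n d x :=
  sum_nonneg fun _ _ => prod_nonneg fun _ _ => ha _ _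

omit ha in
theorem amgm3 {x y z : ℝ} (hx : 0 ≤ x) (hy : 0 ≤ y) (hz : 0 ≤ z) :
    x * y * z ≤ (x * x * x + y * y * y + z * z * z) / 3 := by
  nlinarith [mul_nonneg (add_nonneg (add_nonneg hx hy) hz) (sq_nonneg (x - y)),
    mul_nonneg (add_nonneg (add_nonneg hx hy) hz) (sq_nonneg (y - z)),
    mul_nonneg (add_nonneg (add_nonneg hx hy) hz) (sq_nonneg (z - x))]

/-- the counts are dominated by the diagonal ones -/
theorem T_le (c d₁ d₂ d₃ : Finset ℕ) : T a n c d₁ d₂ d₃ ≤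
    (T a n c d₁ d₁ d₁ + T a n c d₂ d₂ d₂ + T a n c d₃ d₃ d₃) / 3 := by
  simp only [T_swap]
  rw [← sum_add_distrib, ← sum_add_distrib, sum_div]
  exact sum_le_sum fun x _ => amgm3 (W_nonneg ha _ _) (W_nonneg ha _ _) (W_nonneg ha _ _)

end

theorem T_split1 {t t' : ℕ} (h : t ≤ t') (c d₂ d₃ : Finset ℕ) (j : ℕ) :
    T a n c (cell t' j) d₂ d₃ =
      ∑ l ∈ range (2 ^ (t' - t)), T a n c (cell t (j * 2 ^ (t' - t) + l)) d₂ d₃ := by
  unfold T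
  rw [cell_split h]

theorem T_split2 {t t' : ℕ} (h : t ≤ t') (c d₁ d₃ : Finset ℕ) (j : ℕ) :
    T a n c d₁ (cell t' j) d₃ =
      ∑ l ∈ range (2 ^ (t' - t)), T a n c d₁ (cell t (j * 2 ^ (t' - t) + l)) d₃ := by
  unfold T
  rw [sum_comm (s := range _)]
  refine sum_congr rfl fun y₁ _ => ?_
  rw [cell_split h]

theorem T_split3 {t t' : ℕ} (h : t ≤ t') (c d₁ d₂ : Finset ℕ) (j : ℕ) :
    T a n c d₁ d₂ (cell t' j) =
      ∑ l ∈ range (2 ^ (t' - t)), T a n c d₁ d₂ (cell t (j * 2 ^ (t' - t) + l)) := by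
  unfold T
  rw [sum_comm (s := range _)]
  refine sum_congr rfl fun y₁ _ => ?_
  rw [sum_comm (s := range _)]
  refine sum_congr rfl fun y₂ _ => ?_
  rw [cell_split h]

theorem T_split {t t' : ℕ} (h : t ≤ t') (c : Finset ℕ) (j : ℕ) :
    T a n c (cell t' j) (cell t' j) (cell t' j) =
      ∑ l₁ ∈ range (2 ^ (t' - t)), ∑ l₂ ∈ range (2 ^ (t' - t)), ∑ l₃ ∈ range (2 ^ (t' - t)),
        T a n c (cell t (j * 2 ^ (t' - t) + l₁)) (cell t (j * 2 ^ (t' - t) + l₂))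
          (cell t (j * 2 ^ (t' - t) + l₃)) := by
  rw [T_split1 h]
  refine sum_congr rfl fun l₁ _ => ?_
  rw [T_split2 h]
  refine sum_congr rfl fun l₂ _ => ?_
  rw [T_split3 h]

/-! ### Close triples of cells -/

/-- `1` if the two indices are equal or adjacent -/
def clo (l m : ℕ) : ℝ := if l ≤ m + 1 ∧ m ≤ l + 1 then 1 else 0

theorem clo_nonneg (l m : ℕ) : 0 ≤ clo l m := by
  unfold clo; split_ifs <;> norm_num

theorem clo_comm (l m : ℕ) : clo l m = clo m l := by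
  unfold clo; simp only [and_comm]

theorem clo_sum (l K : ℕ) : ∑ m ∈ range K, clo l m ≤ 3 := by
  unfold clo
  rw [← sum_filter, sum_const, nsmul_eq_mul, mul_one]
  have h : (range K).filter (fun m => l ≤ m + 1 ∧ m ≤ l + 1) ⊆ Icc (l - 1) (l + 1) := by
    intro m hm
    rw [mem_filter] at hm
    rw [mem_Icc]
    omega
  have h1 := card_le_card h
  rw [Nat.card_Icc] at h1
  have h2 : ((range K).filter (fun m => l ≤ m + 1 ∧ m ≤ l + 1)).card ≤ 3 := by omega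
  exact_mod_cast h2

section
variable {v : ℕ → ℝ} (hv : ∀ l, 0 ≤ v l) (K : ℕ)
include hv

/-- mass of the triples with close first and second index -/
theorem clo12 : ∑ l₁ ∈ range K, ∑ l₂ ∈ range K, ∑ l₃ ∈ range K,
    clo l₁ l₂ * ((v l₁ + v l₂ + v l₃) / 3) ≤ 3 * K * ∑ l ∈ range K, v l := by
  have e : ∀ l₁ l₂ l₃ : ℕ, clo l₁ l₂ * ((v l₁ + v l₂ + v l₃) / 3) =
      clo l₁ l₂ * v l₁ / 3 + clo l₁ l₂ * v l₂ / 3 + clo l₁ l₂ * v l₃ / 3 := by
    intro l₁ l₂ l₃; ring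
  simp only [e, sum_add_distrib]
  have hV : 0 ≤ ∑ l ∈ range K, v l := sum_nonneg fun l _ => hv l
  have h1 : ∑ l₁ ∈ range K, ∑ l₂ ∈ range K, ∑ l₃ ∈ range K, clo l₁ l₂ * v l₁ / 3 ≤
      K * ∑ l ∈ range K, v l := by
    rw [mul_sum]
    refine sum_le_sum fun l₁ _ => ?_
    simp only [sum_const, card_range, nsmul_eq_mul]
    rw [← mul_sum, ← sum_div, ← sum_mul]
    have := mul_le_mul_of_nonneg_right (clo_sum l₁ K) (hv l₁)
    have hK : (0 : ℝ) ≤ K := Nat.cast_nonneg _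
    nlinarith [mul_nonneg hK (hv l₁)]
  have h2 : ∑ l₁ ∈ range K, ∑ l₂ ∈ range K, ∑ l₃ ∈ range K, clo l₁ l₂ * v l₂ / 3 ≤
      K * ∑ l ∈ range K, v l := by
    rw [sum_comm, mul_sum]
    refine sum_le_sum fun l₂ _ => ?_
    simp only [sum_const, card_range, nsmul_eq_mul]
    rw [← mul_sum, ← sum_div, ← sum_mul]
    have h3 : ∑ l₁ ∈ range K, clo l₁ l₂ ≤ 3 := by
      simp only [clo_comm _ l₂]; exact clo_sum l₂ K
    have := mul_le_mul_of_nonneg_right h3 (hv l₂)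
    have hK : (0 : ℝ) ≤ K := Nat.cast_nonneg _
    nlinarith [mul_nonneg hK (hv l₂)]
  have h3 : ∑ l₁ ∈ range K, ∑ l₂ ∈ range K, ∑ l₃ ∈ range K, clo l₁ l₂ * v l₃ / 3 ≤
      K * ∑ l ∈ range K, v l := by
    have h4 : ∀ l₁ ∈ range K, ∑ l₂ ∈ range K, ∑ l₃ ∈ range K, clo l₁ l₂ * v l₃ / 3 ≤
        ∑ l ∈ range K, v l := by
      intro l₁ _
      have h5 : ∀ l₂ ∈ range K, ∑ l₃ ∈ range K, clo l₁ l₂ * v l₃ / 3 =
          clo l₁ l₂ * (∑ l ∈ range K, v l) / 3 := by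
        intro l₂ _
        rw [mul_sum, sum_div]
      rw [sum_congr rfl h5, ← sum_div, ← sum_mul]
      have := mul_le_mul_of_nonneg_right (clo_sum l₁ K) hV
      linarith
    refine (sum_le_sum h4).trans ?_
    rw [sum_const, card_range, nsmul_eq_mul]
  linarith

theorem clo13 : ∑ l₁ ∈ range K, ∑ l₂ ∈ range K, ∑ l₃ ∈ range K,
    clo l₁ l₃ * ((v l₁ + v l₂ + v l₃) / 3) ≤ 3 * K * ∑ l ∈ range K, v l := by
  refine le_trans (le_of_eq ?_) (clo12 hv K)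
  refine sum_congr rfl fun l₁ _ => ?_
  rw [sum_comm]
  refine sum_congr rfl fun l₂ _ => sum_congr rfl fun l₃ _ => ?_
  ring

theorem clo23 : ∑ l₁ ∈ range K, ∑ l₂ ∈ range K, ∑ l₃ ∈ range K,
    clo l₂ l₃ * ((v l₁ + v l₂ + v l₃) / 3) ≤ 3 * K * ∑ l ∈ range K, v l := by
  refine le_trans (le_of_eq ?_) (clo12 hv K)
  rw [sum_comm]
  refine sum_congr rfl fun l₁ _ => ?_
  rw [sum_comm]
  refine sum_congr rfl fun l₂ _ => sum_congr rfl fun l₃ _ => ?_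
  ring

omit hv in
theorem all3 : ∑ l₁ ∈ range K, ∑ l₂ ∈ range K, ∑ l₃ ∈ range K,
    (v l₁ + v l₂ + v l₃) / 3 = (K : ℝ) ^ 2 * ∑ l ∈ range K, v l := by
  have e : ∀ l₁ l₂ l₃ : ℕ, (v l₁ + v l₂ + v l₃) / 3 = v l₁ / 3 + v l₂ / 3 + v l₃ / 3 := by
    intro l₁ l₂ l₃; ring
  simp only [e, sum_add_distrib, sum_const, card_range, nsmul_eq_mul, ← mul_sum, ← sum_div]
  ring

end

/-! ### Absence of near-squares -/

/-- there is no rectangle with vertical side more than `2 ^ t` and sides differing by less than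
`2 ^ (s + 1)` -/
def NSF (a : ℕ → ℕ → ℝ) (s t : ℕ) : Prop :=
  ∀ x x' y y' : ℕ, a x y ≠ 0 → a x' y ≠ 0 → a x y' ≠ 0 → a x' y' ≠ 0 → y + 2 ^ t < y' → x < x' →
    x + y' < x' + y + 2 ^ (s + 1) → x' + y < x + y' + 2 ^ (s + 1) → False

theorem ns_key {s t : ℕ} (h : NSF a s t) (hst : s + 1 ≤ t) {x x' y y' : ℕ} (h1 : a x y ≠ 0)
    (h2 : a x y' ≠ 0) (h3 : a x' y ≠ 0) (h4 : a x' y' ≠ 0)
    (hfar : y + 2 ^ t < y' ∨ y' + 2 ^ t < y) : x / 2 ^ s + y / 2 ^ s ≠ x' / 2 ^ s + y' / 2 ^ s := by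
  intro he
  have e0 : (2 : ℕ) ^ (s + 1) = 2 * 2 ^ s := by ring
  have e1 : (2 : ℕ) ^ (s + 1) ≤ 2 ^ t := Nat.pow_le_pow_right (by norm_num) hst
  have hp : 0 < (2 : ℕ) ^ s := by positivity
  have d1 := Nat.div_add_mod x (2 ^ s)
  have d2 := Nat.div_add_mod x' (2 ^ s)
  have d3 := Nat.div_add_mod y (2 ^ s)
  have d4 := Nat.div_add_mod y' (2 ^ s)
  have m1 := Nat.mod_lt x hp
  have m2 := Nat.mod_lt x' hp
  have m3 := Nat.mod_lt y hp
  have m4 := Nat.mod_lt y' hp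
  have hm : 2 ^ s * (x / 2 ^ s) + 2 ^ s * (y / 2 ^ s) =
      2 ^ s * (x' / 2 ^ s) + 2 ^ s * (y' / 2 ^ s) := by
    rw [← Nat.mul_add, ← Nat.mul_add, he]
  rcases hfar with hf | hf
  · exact h x' x y y' h3 h1 h4 h2 hf (by omega) (by omega) (by omega)
  · exact h x x' y' y h2 h4 h1 h3 hf (by omega) (by omega) (by omega)

theorem card_supp {s t tm : ℕ} (h : NSF a s tm) (hst : s + 1 ≤ tm) (hs : s ≤ t) (i₀ j k : ℕ)
    {y₁ y₂ y₃ : ℕ} (h1 : y₁ / 2 ^ t = j) (h2 : y₂ / 2 ^ t = j) (h3 : y₃ / 2 ^ t = j)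
    (h12 : y₁ + 2 ^ tm < y₂ ∨ y₂ + 2 ^ tm < y₁) (h13 : y₁ + 2 ^ tm < y₃ ∨ y₃ + 2 ^ tm < y₁)
    (h23 : y₂ + 2 ^ tm < y₃ ∨ y₃ + 2 ^ tm < y₂) :
    3 * ((range k).filter fun r => Z a (cell s (i₀ + r)) y₁ y₂ y₃ ≠ 0).card ≤
      k + 2 ^ (t - s) := by
  classical
  set S := (range k).filter fun r => Z a (cell s (i₀ + r)) y₁ y₂ y₃ ≠ 0 with hS
  have hx : ∀ r ∈ S, ∃ x, x / 2 ^ s = i₀ + r ∧ a x y₁ ≠ 0 ∧ a x y₂ ≠ 0 ∧ a x y₃ ≠ 0 := by
    intro r hr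
    rw [hS, mem_filter] at hr
    by_contra hc
    push Not at hc
    apply hr.2
    unfold Z
    refine sum_eq_zero fun x hx => ?_
    by_cases g1 : a x y₁ = 0
    · rw [g1]; ring
    by_cases g2 : a x y₂ = 0
    · rw [g2]; ring
    rw [hc x (mem_cell.1 hx) g1 g2]; ring
  have hb : ∀ y, y / 2 ^ t = j → j * 2 ^ (t - s) ≤ y / 2 ^ s ∧
      y / 2 ^ s < (j + 1) * 2 ^ (t - s) := by
    intro y hy
    have h4 : y / 2 ^ s / 2 ^ (t - s) = j := by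
      rw [Nat.div_div_eq_div_mul, ← pow_add]
      rw [show s + (t - s) = t by omega, hy]
    have h5 : y / 2 ^ s ∈ cell (t - s) j := mem_cell.2 h4
    rw [cell, mem_Ico] at h5
    exact h5
  have hd : ∀ y y', (∀ r ∈ S, ∀ r' ∈ S, r + y / 2 ^ s ≠ r' + y' / 2 ^ s) →
      Disjoint (S.image fun r => r + y / 2 ^ s) (S.image fun r => r + y' / 2 ^ s) := by
    intro y y' hyy
    rw [disjoint_left]
    intro z hz hz'
    rw [mem_image] at hz hz'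
    obtain ⟨r, hr, h5⟩ := hz
    obtain ⟨r', hr', h6⟩ := hz'
    exact hyy r hr r' hr' (h5.trans h6.symm)
  have hci : ∀ y, (S.image fun r => r + y / 2 ^ s).card = S.card := by
    intro y
    exact card_image_of_injective _ fun r r' hrr => by simpa using hrr
  have d12 : Disjoint (S.image fun r => r + y₁ / 2 ^ s) (S.image fun r => r + y₂ / 2 ^ s) := by
    refine hd _ _ fun r hr r' hr' he => ?_
    obtain ⟨x, e1, g1, g2, g3⟩ := hx r hr
    obtain ⟨x', e1', g1', g2', g3'⟩ := hx r' hr'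
    exact ns_key h hst g1 g2 g1' g2' h12 (by omega)
  have d13 : Disjoint (S.image fun r => r + y₁ / 2 ^ s) (S.image fun r => r + y₃ / 2 ^ s) := by
    refine hd _ _ fun r hr r' hr' he => ?_
    obtain ⟨x, e1, g1, g2, g3⟩ := hx r hr
    obtain ⟨x', e1', g1', g2', g3'⟩ := hx r' hr'
    exact ns_key h hst g1 g3 g1' g3' h13 (by omega)
  have d23 : Disjoint (S.image fun r => r + y₂ / 2 ^ s) (S.image fun r => r + y₃ / 2 ^ s) := by
    refine hd _ _ fun r hr r' hr' he => ?_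
    obtain ⟨x, e1, g1, g2, g3⟩ := hx r hr
    obtain ⟨x', e1', g1', g2', g3'⟩ := hx r' hr'
    exact ns_key h hst g2 g3 g2' g3' h23 (by omega)
  have hsub : ∀ y, y / 2 ^ t = j → (S.image fun r => r + y / 2 ^ s) ⊆
      Ico (j * 2 ^ (t - s)) (k + (j + 1) * 2 ^ (t - s)) := by
    intro y hy z hz
    rw [mem_image] at hz
    obtain ⟨r, hr, h5⟩ := hz
    rw [hS, mem_filter, mem_range] at hr
    obtain ⟨h6, h7⟩ := hb y hy
    rw [mem_Ico]
    omega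
  have hu := card_le_card (union_subset (union_subset (hsub y₁ h1) (hsub y₂ h2)) (hsub y₃ h3))
  rw [card_union_of_disjoint (disjoint_union_left.2 ⟨d13, d23⟩), card_union_of_disjoint d12,
    hci, hci, hci, Nat.card_Ico] at hu
  have h8 : k + (j + 1) * 2 ^ (t - s) = (k + 2 ^ (t - s)) + j * 2 ^ (t - s) := by ring
  rw [h8, Nat.add_sub_cancel] at hu
  linarith

/-! ### The step -/

section
variable (ha : ∀ x y, 0 ≤ a x y)
include ha

theorem Z_pow_le {s s' : ℕ} (h : s ≤ s') (i y₁ y₂ y₃ : ℕ) :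
    Z a (cell s' i) y₁ y₂ y₃ ^ (n + 1) ≤ ((2 ^ (s' - s) : ℕ) : ℝ) ^ n *
      ∑ r ∈ range (2 ^ (s' - s)), Z a (cell s (i * 2 ^ (s' - s) + r)) y₁ y₂ y₃ ^ (n + 1) := by
  have e : Z a (cell s' i) y₁ y₂ y₃ =
      ∑ r ∈ range (2 ^ (s' - s)), Z a (cell s (i * 2 ^ (s' - s) + r)) y₁ y₂ y₃ := by
    unfold Z; rw [cell_split h]
  rw [e]
  have := pow_sum_le_card_mul_sum_pow (s := range (2 ^ (s' - s)))
    (f := fun r => Z a (cell s (i * 2 ^ (s' - s) + r)) y₁ y₂ y₃)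
    (fun r _ => Z_nonneg ha _ _ _ _) n
  rwa [card_range] at this

theorem Z_pow_good {s s' t tm : ℕ} (hN : NSF a s tm) (hst : s + 1 ≤ tm) (hs : s ≤ t)
    (h : s ≤ s') (i j : ℕ) {y₁ y₂ y₃ : ℕ} (h1 : y₁ / 2 ^ t = j) (h2 : y₂ / 2 ^ t = j)
    (h3 : y₃ / 2 ^ t = j)
    (h12 : y₁ + 2 ^ tm < y₂ ∨ y₂ + 2 ^ tm < y₁) (h13 : y₁ + 2 ^ tm < y₃ ∨ y₃ + 2 ^ tm < y₁)
    (h23 : y₂ + 2 ^ tm < y₃ ∨ y₃ + 2 ^ tm < y₂) :
    Z a (cell s' i) y₁ y₂ y₃ ^ (n + 1) ≤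
      (((2 ^ (s' - s) : ℕ) + (2 ^ (t - s) : ℕ) : ℝ) / 3) ^ n *
      ∑ r ∈ range (2 ^ (s' - s)), Z a (cell s (i * 2 ^ (s' - s) + r)) y₁ y₂ y₃ ^ (n + 1) := by
  classical
  set k := 2 ^ (s' - s) with hk
  set S := (range k).filter fun r => Z a (cell s (i * k + r)) y₁ y₂ y₃ ≠ 0 with hS
  have e : Z a (cell s' i) y₁ y₂ y₃ = ∑ r ∈ S, Z a (cell s (i * k + r)) y₁ y₂ y₃ := by
    rw [hS, sum_filter_ne_zero]
    unfold Z; rw [cell_split h]
  have h4 := pow_sum_le_card_mul_sum_pow (s := S)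
    (f := fun r => Z a (cell s (i * k + r)) y₁ y₂ y₃)
    (fun r _ => Z_nonneg ha _ _ _ _) n
  have h5 : (S.card : ℝ) ≤ ((k : ℝ) + (2 ^ (t - s) : ℕ)) / 3 := by
    have := card_supp hN hst hs (i * k) j k h1 h2 h3 h12 h13 h23
    rw [← hS] at this
    have h6 : ((3 * S.card : ℕ) : ℝ) ≤ ((k + 2 ^ (t - s) : ℕ) : ℝ) := by exact_mod_cast this
    push_cast at h6 ⊢
    linarith
  have h7 : ∑ r ∈ S, Z a (cell s (i * k + r)) y₁ y₂ y₃ ^ (n + 1) ≤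
      ∑ r ∈ range k, Z a (cell s (i * k + r)) y₁ y₂ y₃ ^ (n + 1) :=
    sum_le_sum_of_subset_of_nonneg (filter_subset _ _)
      fun r _ _ => pow_nonneg (Z_nonneg ha _ _ _ _) _
  rw [e]
  refine h4.trans (mul_le_mul (pow_le_pow_left₀ (Nat.cast_nonneg _) h5 n) h7
    (sum_nonneg fun r _ => pow_nonneg (Z_nonneg ha _ _ _ _) _) (by positivity))

/-- the trivial bound -/
theorem T_x_le {s s' : ℕ} (h : s ≤ s') (i : ℕ) (d₁ d₂ d₃ : Finset ℕ) :
    T a n (cell s' i) d₁ d₂ d₃ ≤ ((2 ^ (s' - s) : ℕ) : ℝ) ^ n *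
      ∑ r ∈ range (2 ^ (s' - s)), T a n (cell s (i * 2 ^ (s' - s) + r)) d₁ d₂ d₃ := by
  unfold T
  rw [sum_comm (s := range _), mul_sum]
  refine sum_le_sum fun y₁ _ => ?_
  rw [sum_comm (s := range _), mul_sum]
  refine sum_le_sum fun y₂ _ => ?_
  rw [sum_comm (s := range _), mul_sum]
  refine sum_le_sum fun y₃ _ => ?_
  exact Z_pow_le ha h i y₁ y₂ y₃

theorem T_x_good {s s' t tm : ℕ} (hN : NSF a s tm) (hst : s + 1 ≤ tm) (hs : s ≤ t)
    (htm : tm ≤ t) (h : s ≤ s') (i j : ℕ) {l₁ l₂ l₃ : ℕ}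
    (g1 : l₁ < 2 ^ (t - tm)) (g2 : l₂ < 2 ^ (t - tm)) (g3 : l₃ < 2 ^ (t - tm))
    (h12 : clo l₁ l₂ = 0) (h13 : clo l₁ l₃ = 0) (h23 : clo l₂ l₃ = 0) :
    T a n (cell s' i) (cell tm (j * 2 ^ (t - tm) + l₁)) (cell tm (j * 2 ^ (t - tm) + l₂))
        (cell tm (j * 2 ^ (t - tm) + l₃)) ≤
      (((2 ^ (s' - s) : ℕ) + (2 ^ (t - s) : ℕ) : ℝ) / 3) ^ n *
      ∑ r ∈ range (2 ^ (s' - s)), T a n (cell s (i * 2 ^ (s' - s) + r))
        (cell tm (j * 2 ^ (t - tm) + l₁)) (cell tm (j * 2 ^ (t - tm) + l₂))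
        (cell tm (j * 2 ^ (t - tm) + l₃)) := by
  have hj : ∀ l, l < 2 ^ (t - tm) → ∀ y ∈ cell tm (j * 2 ^ (t - tm) + l), y / 2 ^ t = j := by
    intro l hl y hy
    rw [mem_cell] at hy
    have h4 : y / 2 ^ tm / 2 ^ (t - tm) = j := by
      rw [hy]
      exact mem_cell.1 (by rw [cell, mem_Ico]; constructor <;> [omega; (rw [add_mul, one_mul]; omega)])
    rw [Nat.div_div_eq_div_mul, ← pow_add, show tm + (t - tm) = t by omega] at h4
    exact h4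
  have hf : ∀ l l', clo l l' = 0 → ∀ y ∈ cell tm (j * 2 ^ (t - tm) + l),
      ∀ y' ∈ cell tm (j * 2 ^ (t - tm) + l'), y + 2 ^ tm < y' ∨ y' + 2 ^ tm < y := by
    intro l l' hl y hy y' hy'
    have hc : ¬ (l ≤ l' + 1 ∧ l' ≤ l + 1) := by
      intro hc
      unfold clo at hl
      rw [if_pos hc] at hl
      norm_num at hl
    rw [cell, mem_Ico] at hy hy'
    set q := (2 : ℕ) ^ tm with hq
    set m := j * 2 ^ (t - tm) with hm
    rcases Nat.lt_or_ge (l + 1) l' with hlt | hge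
    · left
      have e : (m + l + 1) * q + q ≤ (m + l') * q := by
        calc (m + l + 1) * q + q = (m + l + 2) * q := by ring
          _ ≤ (m + l') * q := Nat.mul_le_mul_right _ (by omega)
      omega
    · right
      have hlt : l' + 1 < l := by
        by_contra h9
        exact hc ⟨by omega, hge⟩
      have e : (m + l' + 1) * q + q ≤ (m + l) * q := by
        calc (m + l' + 1) * q + q = (m + l' + 2) * q := by ring
          _ ≤ (m + l) * q := Nat.mul_le_mul_right _ (by omega)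
      omega
  unfold T
  rw [sum_comm (s := range _), mul_sum]
  refine sum_le_sum fun y₁ hy₁ => ?_
  rw [sum_comm (s := range _), mul_sum]
  refine sum_le_sum fun y₂ hy₂ => ?_
  rw [sum_comm (s := range _), mul_sum]
  refine sum_le_sum fun y₃ hy₃ => ?_
  exact Z_pow_good ha hN hst hs h i j (hj _ g1 _ hy₁) (hj _ g2 _ hy₂) (hj _ g3 _ hy₃)
    (hf _ _ h12 _ hy₁ _ hy₂) (hf _ _ h13 _ hy₁ _ hy₃) (hf _ _ h23 _ hy₂ _ hy₃)

end

end Pool.Agent.NSq
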