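import Pool.Agent.NSq.Rec

/-!
# Sets without near-squares in a dyadic square
-/

namespace Pool.Agent.NSq
open Finset

variable {a : ℕ → ℕ → ℝ} {n : ℕ}

/-- no rectangle with sides at least `B` which differ by at most `φ` of the smaller side -/
def NoNear (φ : ℝ → ℝ) (B : ℝ) (a : ℕ → ℕ → ℝ) : Prop :=
  ∀ x x' y y' : ℕ, a x y = 1 → a x' y = 1 → a x y' = 1 → a x' y' = 1 → x < x' → y < y' →
    B ≤ (x' : ℝ) - x → B ≤ (y' : ℝ) - y →
    |((x' : ℝ) - x) - ((y' : ℝ) - y)| ≤ φ (min ((x' : ℝ) - x) ((y' : ℝ) - y)) → False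

theorem nsf_of_noNear' {φ : ℝ → ℝ} {B : ℝ} (h01 : ∀ x y, a x y = 0 ∨ a x y = 1)
    (h : NoNear φ B a) {s m : ℕ} (hφ : ∀ t : ℝ, 2 ^ m ≤ t → 2 ^ (s + 1) ≤ φ t)
    (hsm : s + 1 ≤ m) (hm : B ≤ 2 ^ m) : NSF a s (m + 1) := by
  intro x x' y y' a1 a2 a3 a4 hy hx hl hr
  have c1 : ∀ x y, a x y ≠ 0 → a x y = 1 := fun x y h => (h01 x y).resolve_left h
  have e1 : (2 : ℕ) ^ (m + 1) = 2 ^ m + 2 ^ m := by ring
  have e2 : (2 : ℕ) ^ (s + 1) ≤ 2 ^ m := Nat.pow_le_pow_right (by norm_num) hsm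
  have hyy : y + 2 ^ m < y' := by omega
  have hxx : x + 2 ^ m < x' := by omega
  have f1 : (2 : ℝ) ^ m ≤ (x' : ℝ) - x := by
    have : ((x + 2 ^ m : ℕ) : ℝ) < x' := by exact_mod_cast hxx
    push_cast at this; linarith
  have f2 : (2 : ℝ) ^ m ≤ (y' : ℝ) - y := by
    have : ((y + 2 ^ m : ℕ) : ℝ) < y' := by exact_mod_cast hyy
    push_cast at this; linarith
  have f3 : ((x : ℝ) + y') < x' + y + 2 ^ (s + 1) := by exact_mod_cast hl
  have f4 : ((x' : ℝ) + y) < x + y' + 2 ^ (s + 1) := by exact_mod_cast hr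
  have f5 : |((x' : ℝ) - x) - ((y' : ℝ) - y)| ≤ 2 ^ (s + 1) := by
    rw [abs_le]; constructor <;> linarith
  exact h x x' y y' (c1 _ _ a1) (c1 _ _ a2) (c1 _ _ a3) (c1 _ _ a4) (by omega) (by omega)
    (hm.trans f1) (hm.trans f2) (f5.trans (hφ _ (le_min f1 f2)))

theorem nsf_of_noNear {θ B : ℝ} (h0 : 0 < θ) (h1 : θ < 1) (h01 : ∀ x y, a x y = 0 ∨ a x y = 1)
    (h : NoNear (fun t => t ^ θ) B a) {s m : ℕ} (hs : (s : ℝ) + 1 ≤ θ * m) (hm : B ≤ 2 ^ m) :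
    NSF a s (m + 1) := by
  have hsm : s + 1 ≤ m := by
    have h2 : (s : ℝ) + 1 ≤ m := hs.trans (by nlinarith [Nat.cast_nonneg (α := ℝ) m])
    exact_mod_cast h2
  refine nsf_of_noNear' h01 h (fun t ht => ?_) hsm hm
  have g1 : (2 : ℝ) ^ (s + 1) ≤ ((2 : ℝ) ^ m) ^ θ := by
    rw [← Real.rpow_natCast 2 m, ← Real.rpow_mul (by norm_num), ← Real.rpow_natCast 2 (s + 1)]
    apply Real.rpow_le_rpow_of_exponent_le (by norm_num)
    push_cast
    linarith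
  exact g1.trans (Real.rpow_le_rpow (by positivity) ht h0.le)

theorem nsf_of_noNear_eps {ε B : ℝ} {r : ℕ} (hr : 1 / 2 ^ r ≤ ε)
    (h01 : ∀ x y, a x y = 0 ∨ a x y = 1)
    (h : NoNear (fun t => ε * t) B a) {s : ℕ} (hm : B ≤ 2 ^ (s + 1 + r)) :
    NSF a s (s + 1 + r + 1) := by
  refine nsf_of_noNear' h01 h (fun t ht => ?_) (by omega) hm
  have hr' : 0 < (1 : ℝ) / 2 ^ r := by positivity
  calc (2 : ℝ) ^ (s + 1) = 1 / 2 ^ r * 2 ^ (s + 1 + r) := by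
        rw [pow_add 2 (s + 1) r]; field_simp
    _ ≤ 1 / 2 ^ r * t := mul_le_mul_of_nonneg_left ht hr'.le
    _ ≤ ε * t := mul_le_mul_of_nonneg_right hr (le_trans (by positivity) ht)

theorem mass_le {θ κ B : ℝ} (h0 : 0 < θ) (h1 : θ < 1) (hκ : 0 < κ) (h : 1 < 3 * θ ^ (3 * κ)) :
    ∃ C : ℝ, 0 < C ∧ ∀ a : ℕ → ℕ → ℝ, (∀ x y, a x y = 0 ∨ a x y = 1) →
      NoNear (fun t => t ^ θ) B a →
      ∀ E : ℕ, mass a E ≤ C * ((E : ℝ) + 1) ^ (-κ) * 4 ^ E := by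
  obtain ⟨n, l, hnl⟩ := exists_params h0 h
  set g : ℝ := ((1 + 1 / 2 ^ l) / 3) ^ n + 9 / 2 ^ l with hg
  have hg0 : 0 < g := by rw [hg]; positivity
  set Γ : ℝ := κ * (3 * n + 2) with hΓ
  have hΓ0 : 0 < Γ := by rw [hΓ]; positivity
  -- the first scale
  set e₀ : ℕ := 2 * l + 1 + ⌈B⌉₊ + ⌈1 / θ⌉₊ with he₀
  set C₀ : ℝ := θ * (2 * l + 2) + 1 with hC₀
  obtain ⟨C, hC, hrec⟩ := recursion (C₀ := C₀) hg0 h0 hΓ0 hnl e₀
  refine ⟨C ^ ((1 : ℝ) / (3 * n + 2)), by positivity, ?_⟩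
  intro a h01 hN E
  have ha : ∀ x y, 0 ≤ a x y := by
    intro x y; rcases h01 x y with h | h <;> rw [h]; norm_num
  set σ : ℕ → ℕ := fun e => ⌊θ * ((e - (2 * l + 1) : ℕ) : ℝ)⌋₊ - 1 with hσ
  have hσ1 : ∀ e, e₀ ≤ e → ((σ e : ℝ) + 1 ≤ θ * ((e - (2 * l + 1) : ℕ) : ℝ)) ∧
      (θ * ((e - (2 * l + 1) : ℕ) : ℝ) - 1 ≤ (σ e : ℝ) + 1) := by
    intro e he
    have g1 : ⌈1 / θ⌉₊ ≤ e - (2 * l + 1) := by omega
    have g2 : 1 / θ ≤ ((e - (2 * l + 1) : ℕ) : ℝ) :=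
      (Nat.le_ceil _).trans (by exact_mod_cast g1)
    have g3 : 1 ≤ θ * ((e - (2 * l + 1) : ℕ) : ℝ) := by
      rw [div_le_iff₀ h0] at g2; linarith
    have g4 : 1 ≤ ⌊θ * ((e - (2 * l + 1) : ℕ) : ℝ)⌋₊ := Nat.le_floor (by exact_mod_cast g3)
    have g5 : ((σ e : ℕ) : ℝ) + 1 = (⌊θ * ((e - (2 * l + 1) : ℕ) : ℝ)⌋₊ : ℝ) := by
      have : σ e + 1 = ⌊θ * ((e - (2 * l + 1) : ℕ) : ℝ)⌋₊ := by
        simp only [hσ]; omega
      exact_mod_cast this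
    constructor
    · rw [g5]; exact Nat.floor_le (by linarith)
    · rw [g5]
      have := Nat.lt_floor_add_one (θ * ((e - (2 * l + 1) : ℕ) : ℝ))
      linarith
  have hcast : ∀ e, e₀ ≤ e → ((e - (2 * l + 1) : ℕ) : ℝ) = (e : ℝ) - (2 * l + 1) := by
    intro e he
    rw [Nat.cast_sub (by omega)]; push_cast; ring
  have hσlt : ∀ e, e₀ ≤ e → σ e + 1 ≤ e - (2 * l + 1) := by
    intro e he
    have h2 : (σ e : ℝ) + 1 ≤ ((e - (2 * l + 1) : ℕ) : ℝ) :=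
      (hσ1 e he).1.trans (by nlinarith [Nat.cast_nonneg (α := ℝ) (e - (2 * l + 1))])
    exact_mod_cast h2
  have hmain := hrec E (fun e => G a n E e (e - l)) (mass a E) σ ?_ ?_ ?_ ?_ ?_ E le_rfl
  rotate_left
  · exact sum_nonneg fun _ _ => sum_nonneg fun _ _ => ha _ _
  · intro e he
    rw [← G_zero (n := n) h01]
    exact G_le_zero ha he (by omega)
  · intro e he heE
    have hlt := hσlt e he
    have hNS : NSF a (σ e) (e - (2 * l + 1) + 1) := by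
      refine nsf_of_noNear h0 h1 h01 hN (hσ1 e he).1 ?_
      have g1 : ⌈B⌉₊ ≤ e - (2 * l + 1) := by omega
      have g2 : B ≤ ((e - (2 * l + 1) : ℕ) : ℝ) := (Nat.le_ceil _).trans (by exact_mod_cast g1)
      refine g2.trans ?_
      have g3 : e - (2 * l + 1) ≤ 2 ^ (e - (2 * l + 1)) := Nat.lt_two_pow_self.le
      exact_mod_cast g3
    have e2 : e - (2 * l + 1) + 1 = e - 2 * l := by omega
    rw [e2] at hNS
    have hst := G_step (n := n) (E := E) ha hNS (t := e - l) (s' := e) (by omega) (by omega)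
      (by omega) heE
    rw [show e - (e - l) = l by omega, show e - l - (e - 2 * l) = l by omega] at hst
    refine hst.trans (mul_le_mul_of_nonneg_left ?_ hg0.le)
    exact G_y_le ha (by omega) (by omega)
  · intro e he
    have := hσlt e he
    omega
  · intro e he
    refine le_trans (le_of_eq ?_) (hσ1 e he).2
    rw [hcast e he, hC₀]; ring
  -- conclusion
  have hmass : 0 ≤ mass a E := sum_nonneg fun _ _ => sum_nonneg fun _ _ => ha _ _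
  rcases hmass.eq_or_lt with hz | hpos
  · rw [← hz]; positivity
  have hlow := mass_pow_le (n := n) ha E
  have hup : G a n E E E ≤ G a n E E (E - l) := G_y_le ha (by omega) le_rfl
  have hE : (0 : ℝ) < (E : ℝ) + 1 := by positivity
  have h3 : mass a E ^ (3 * (n + 1)) ≤
      (2 ^ E) ^ (6 * n + 4) * (C * ((E : ℝ) + 1) ^ (-Γ) * mass a E) :=
    hlow.trans (mul_le_mul_of_nonneg_left (hup.trans hmain) (by positivity))
  have h4 : mass a E ^ (3 * n + 2) ≤ (4 ^ E) ^ (3 * n + 2) * (C * ((E : ℝ) + 1) ^ (-Γ)) := by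
    have e1 : mass a E ^ (3 * (n + 1)) = mass a E ^ (3 * n + 2) * mass a E := by
      rw [← pow_succ, show 3 * (n + 1) = 3 * n + 2 + 1 by ring]
    have e2 : ((2 : ℝ) ^ E) ^ (6 * n + 4) = (4 ^ E) ^ (3 * n + 2) := by
      rw [show (4 : ℝ) = 2 ^ 2 by norm_num, ← pow_mul, ← pow_mul, ← pow_mul]; congr 1; ring
    rw [e1, e2, ← mul_assoc] at h3
    exact le_of_mul_le_mul_right h3 hpos
  have h5 : (C ^ ((1 : ℝ) / (3 * n + 2)) * ((E : ℝ) + 1) ^ (-κ)) ^ (3 * n + 2) =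
      C * ((E : ℝ) + 1) ^ (-Γ) := by
    rw [mul_pow, ← Real.rpow_natCast (C ^ _), ← Real.rpow_mul hC.le,
      ← Real.rpow_natCast (((E : ℝ) + 1) ^ (-κ)), ← Real.rpow_mul hE.le]
    push_cast
    rw [one_div, inv_mul_cancel₀ (by positivity), Real.rpow_one, hΓ]
    congr 2
    ring
  have h6 : mass a E ^ (3 * n + 2) ≤
      (C ^ ((1 : ℝ) / (3 * n + 2)) * ((E : ℝ) + 1) ^ (-κ) * 4 ^ E) ^ (3 * n + 2) := by
    rw [mul_pow, h5]
    linarith
  exact le_of_pow_le_pow_left₀ (by omega) (by positivity) h6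

theorem recursion_lin {g ρ : ℝ} (hg : 0 < g) (hρ0 : 0 < ρ) (hρ1 : ρ < 1) (D : ℕ)
    (hρD : ρ ^ D = g) (hD : 0 < D) (e₀ : ℕ) :
    ∀ (E : ℕ) (V : ℕ → ℝ) (V₀ : ℝ), 0 ≤ V₀ →
      (∀ e ≤ E, V e ≤ V₀) → (∀ e, e₀ ≤ e → D ≤ e → e ≤ E → V e ≤ g * V (e - D)) →
      ∀ e ≤ E, V e ≤ (ρ ^ (max e₀ D))⁻¹ * ρ ^ e * V₀ := by
  set e₁ := max e₀ D with he₁
  intro E V V₀ hV₀ hb hs e
  induction e using Nat.strong_induction_on with
  | _ e ih =>
    intro heE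
    rcases Nat.lt_or_ge e e₁ with hlt | hge
    · refine (hb e heE).trans ?_
      have h2 : (1 : ℝ) ≤ (ρ ^ e₁)⁻¹ * ρ ^ e := by
        rw [← div_eq_inv_mul, one_le_div (by positivity)]
        exact pow_le_pow_of_le_one hρ0.le hρ1.le hlt.le
      calc V₀ = 1 * V₀ := (one_mul _).symm
        _ ≤ _ := mul_le_mul_of_nonneg_right h2 hV₀
    · have hge0 : e₀ ≤ e := le_trans (le_max_left _ _) hge
      have hge2 : D ≤ e := le_trans (le_max_right _ _) hge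
      have h4 := ih (e - D) (by omega) (by omega)
      calc V e ≤ g * V (e - D) := hs e hge0 hge2 heE
        _ ≤ g * ((ρ ^ e₁)⁻¹ * ρ ^ (e - D) * V₀) := mul_le_mul_of_nonneg_left h4 hg.le
        _ = (ρ ^ e₁)⁻¹ * (ρ ^ D * ρ ^ (e - D)) * V₀ := by rw [hρD]; ring
        _ = (ρ ^ e₁)⁻¹ * ρ ^ e * V₀ := by rw [← pow_add]; congr 3; omega

/-- the gain used below -/
noncomputable def gg : ℝ := ((1 + 1 / 2 ^ 5) / 3) ^ 1 + 9 / 2 ^ 5

theorem gg_lt : gg < 1 := by unfold gg; norm_num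
theorem gg_gt : 1 / 2 ≤ gg := by unfold gg; norm_num

/-- sets without rectangles whose sides differ by at most the factor `1 + ε` have size
`O(N ^ (2 - c / log (2 / ε)))` -/
theorem mass_le_eps : ∃ c₀ : ℝ, 0 < c₀ ∧ c₀ ≤ Real.log 2 ∧ ∀ B : ℝ, ∃ C : ℝ, 0 < C ∧
    ∀ ε : ℝ, 0 < ε → ε ≤ 1 → ∀ a : ℕ → ℕ → ℝ, (∀ x y, a x y = 0 ∨ a x y = 1) →
      NoNear (fun t => ε * t) B a →
      ∀ E : ℕ, mass a E ≤ C * 2 ^ ((2 - c₀ / Real.log (2 / ε)) * (E : ℝ)) := by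
  have hg0 : 0 < gg := by have := gg_gt; linarith
  have hg1 : gg < 1 := gg_lt
  have hg2 : 1 / 2 ≤ gg := gg_gt
  have hl2 : 0 < Real.log 2 := Real.log_pos (by norm_num)
  set G₀ : ℝ := - Real.logb 2 gg with hG₀
  have hG0 : 0 < G₀ := by
    rw [hG₀]; have := Real.logb_neg (b := 2) (by norm_num) hg0 hg1; linarith
  have hG1 : G₀ ≤ 1 := by
    have : -1 ≤ Real.logb 2 gg := by
      rw [Real.le_logb_iff_rpow_le (by norm_num) hg0, Real.rpow_neg_one]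
      linarith
    rw [hG₀]; linarith
  refine ⟨G₀ * Real.log 2 / 65, by positivity, ?_, ?_⟩
  · nlinarith
  intro B
  refine ⟨((gg ^ (⌈B⌉₊ + 1))⁻¹) ^ ((1 : ℝ) / 5), by positivity, ?_⟩
  intro ε hε hε1 a h01 hN E
  set r : ℕ := ⌈Real.logb 2 (1 / ε)⌉₊ with hr
  have hlb : 0 ≤ Real.logb 2 (1 / ε) :=
    Real.logb_nonneg (by norm_num) (by rw [le_div_iff₀ hε]; linarith)
  have hr1 : Real.logb 2 (1 / ε) ≤ r := Nat.le_ceil _
  have hr2 : (r : ℝ) < Real.logb 2 (1 / ε) + 1 := Nat.ceil_lt_add_one hlb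
  have hr' : 1 / 2 ^ r ≤ ε := by
    rw [Real.logb_le_iff_le_rpow (by norm_num) (by positivity), Real.rpow_natCast] at hr1
    rw [div_le_iff₀ (by positivity)]
    rw [div_le_iff₀ hε] at hr1
    linarith
  set D : ℕ := 2 * 5 + 2 + r with hD
  have hDp : 0 < D := by omega
  have hD' : (0 : ℝ) < D := by exact_mod_cast hDp
  set g : ℝ := gg with hg
  set ρ : ℝ := g ^ ((1 : ℝ) / D) with hρ
  have hρ0 : 0 < ρ := by rw [hρ]; positivity
  have hρ1 : ρ < 1 := Real.rpow_lt_one hg0.le hg1 (by positivity)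
  have hρD : ρ ^ D = g := by
    rw [hρ, ← Real.rpow_natCast, ← Real.rpow_mul hg0.le, one_div, inv_mul_cancel₀ hD'.ne',
      Real.rpow_one]
  have hgρ : g ≤ ρ := by
    conv_lhs => rw [← hρD]
    exact pow_le_of_le_one hρ0.le hρ1.le hDp.ne'
  set e₀ : ℕ := D + ⌈B⌉₊ with he₀
  have ha : ∀ x y, 0 ≤ a x y := by
    intro x y; rcases h01 x y with h | h <;> rw [h]; norm_num
  have hmass : 0 ≤ mass a E := sum_nonneg fun _ _ => sum_nonneg fun _ _ => ha _ _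
  have hmain := recursion_lin hg0 hρ0 hρ1 D hρD hDp e₀ E (fun e => G a 1 E e (e - 5)) (mass a E)
    hmass ?_ ?_ E le_rfl
  rotate_left
  · intro e he
    rw [← G_zero (n := 1) h01]
    exact G_le_zero ha he (by omega)
  · intro e he heD heE
    have hNS : NSF a (e - D) (e - D + 1 + r + 1) := by
      refine nsf_of_noNear_eps hr' h01 hN ?_
      have g1 : ⌈B⌉₊ ≤ e - D + 1 + r := by omega
      have g2 : B ≤ ((e - D + 1 + r : ℕ) : ℝ) := (Nat.le_ceil _).trans (by exact_mod_cast g1)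
      refine g2.trans ?_
      have g3 : e - D + 1 + r ≤ 2 ^ (e - D + 1 + r) := Nat.lt_two_pow_self.le
      exact_mod_cast g3
    have e2 : e - D + 1 + r + 1 = e - 2 * 5 := by omega
    rw [e2] at hNS
    have hst := G_step (n := 1) (E := E) ha hNS (t := e - 5) (s' := e) (by omega) (by omega)
      (by omega) heE
    rw [show e - (e - 5) = 5 by omega, show e - 5 - (e - 2 * 5) = 5 by omega] at hst
    refine hst.trans (mul_le_mul_of_nonneg_left ?_ hg0.le)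
    exact G_y_le ha (by omega) (by omega)
  have hCle : (ρ ^ (max e₀ D))⁻¹ ≤ (g ^ (⌈B⌉₊ + 1))⁻¹ := by
    apply inv_anti₀ (by positivity)
    have e1 : max e₀ D = ⌈B⌉₊ + D := by rw [max_eq_left (by omega)]; omega
    calc g ^ (⌈B⌉₊ + 1) = g ^ ⌈B⌉₊ * g := pow_succ _ _
      _ ≤ ρ ^ ⌈B⌉₊ * g :=
        mul_le_mul_of_nonneg_right (pow_le_pow_left₀ hg0.le hgρ _) hg0.le
      _ = ρ ^ max e₀ D := by rw [e1, pow_add, hρD]
  set C : ℝ := (g ^ (⌈B⌉₊ + 1))⁻¹ with hC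
  have hC0 : 0 < C := by rw [hC]; positivity
  rcases hmass.eq_or_lt with hz | hpos
  · rw [← hz]; positivity
  have hlow := mass_pow_le (n := 1) ha E
  have hup : G a 1 E E E ≤ G a 1 E E (E - 5) := G_y_le ha (by omega) le_rfl
  have hmain' : G a 1 E E (E - 5) ≤ C * ρ ^ E * mass a E := by
    refine hmain.trans ?_
    gcongr
  have h3 : mass a E ^ 6 ≤ (2 ^ E) ^ 10 * (C * ρ ^ E * mass a E) :=
    hlow.trans (mul_le_mul_of_nonneg_left (hup.trans hmain') (by positivity))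
  have h4 : mass a E ^ 5 ≤ (2 ^ E) ^ 10 * (C * ρ ^ E) := by
    rw [pow_succ, ← mul_assoc] at h3
    exact le_of_mul_le_mul_right h3 hpos
  set c : ℝ := - Real.logb 2 ρ / 5 with hc
  have h5 : (C ^ ((1 : ℝ) / 5) * 2 ^ ((2 - c) * (E : ℝ))) ^ 5 = (2 ^ E) ^ 10 * (C * ρ ^ E) := by
    have e1 : (C ^ ((1 : ℝ) / 5)) ^ 5 = C := by
      rw [← Real.rpow_natCast (C ^ _), ← Real.rpow_mul hC0.le]
      norm_num
    have e2 : ((2 : ℝ) ^ ((2 - c) * (E : ℝ))) ^ 5 = (2 ^ E) ^ 10 * ρ ^ E := by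
      have e3 : ρ = (2 : ℝ) ^ (Real.logb 2 ρ) := (Real.rpow_logb (by norm_num) (by norm_num) hρ0).symm
      rw [← Real.rpow_natCast ((2 : ℝ) ^ ((2 - c) * (E : ℝ))), ← Real.rpow_mul (by norm_num)]
      conv_rhs => rw [e3]
      rw [← Real.rpow_natCast ((2 : ℝ) ^ Real.logb 2 ρ) E, ← Real.rpow_mul (by norm_num), ← pow_mul,
        ← Real.rpow_natCast 2 (E * 10), ← Real.rpow_add (by norm_num)]
      congr 1
      push_cast
      rw [hc]; ring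
    rw [mul_pow, e1, e2]; ring
  have h6 : mass a E ^ 5 ≤ (C ^ ((1 : ℝ) / 5) * 2 ^ ((2 - c) * (E : ℝ))) ^ 5 := by
    rw [h5]; exact h4
  have h7 : mass a E ≤ C ^ ((1 : ℝ) / 5) * 2 ^ ((2 - c) * (E : ℝ)) :=
    le_of_pow_le_pow_left₀ (by omega) (by positivity) h6
  refine h7.trans (mul_le_mul_of_nonneg_left ?_ (by positivity))
  apply Real.rpow_le_rpow_of_exponent_le (by norm_num)
  refine mul_le_mul_of_nonneg_right ?_ (Nat.cast_nonneg _)
  -- `c₀ / log (2 / ε) ≤ c`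
  have hcval : c = G₀ / (5 * D) := by
    rw [hc, hρ, Real.logb_rpow_eq_mul_logb_of_pos hg0, hG₀]
    field_simp
  have hlog : Real.log (2 / ε) = Real.log 2 * (1 + Real.logb 2 (1 / ε)) := by
    rw [Real.logb, show (2 : ℝ) / ε = 2 * (1 / ε) by ring,
      Real.log_mul (by norm_num) (by positivity)]
    field_simp
  have hD2 : (D : ℝ) ≤ 13 * (1 + Real.logb 2 (1 / ε)) := by
    rw [hD]; push_cast; linarith
  have hpos' : 0 < 1 + Real.logb 2 (1 / ε) := by linarith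
  have h8 : G₀ * Real.log 2 / 65 / Real.log (2 / ε) ≤ c := by
    rw [hcval, hlog, div_div, div_le_div_iff₀ (by positivity) (by positivity)]
    have h9 : G₀ * Real.log 2 * (5 * (D : ℝ)) ≤
        G₀ * Real.log 2 * (5 * (13 * (1 + Real.logb 2 (1 / ε)))) := by
      apply mul_le_mul_of_nonneg_left _ (by positivity)
      linarith
    calc G₀ * Real.log 2 * (5 * (D : ℝ)) ≤ _ := h9
      _ = G₀ * (65 * (Real.log 2 * (1 + Real.logb 2 (1 / ε)))) := by ring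
  linarith

end Pool.Agent.NSq
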