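import Pool.Agent.NSq.Fin

/-!
# Near-squares in sets of lattice points
-/

namespace Pool.Agent.NSq
open Finset
open scoped ENNReal

/-- `A` contains the four vertices of an axis-parallel rectangle whose sides `a, b` are positive, at
least `B`, and differ by at most `φ (min a b)` -/
def HasNear (A : Set (ℤ × ℤ)) (φ : ℝ → ℝ) (B : ℝ) : Prop :=
  ∃ x y a b : ℤ, 0 < a ∧ 0 < b ∧ B ≤ a ∧ B ≤ b ∧ |(a : ℝ) - b| ≤ φ (min (a : ℝ) b) ∧
    (x, y) ∈ A ∧ (x + a, y) ∈ A ∧ (x, y + b) ∈ A ∧ (x + a, y + b) ∈ A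

section
open scoped Classical

/-- indicator function of the translate of `A` by `(m, m)` -/
noncomputable def ind (A : Set (ℤ × ℤ)) (m : ℕ) (x y : ℕ) : ℝ :=
  if ((x : ℤ) - m, (y : ℤ) - m) ∈ A then 1 else 0

theorem ind01 (A : Set (ℤ × ℤ)) (m x y : ℕ) : ind A m x y = 0 ∨ ind A m x y = 1 := by
  unfold ind; split_ifs <;> simp

theorem ind_one {A : Set (ℤ × ℤ)} {m x y : ℕ} (h : ind A m x y = 1) :
    ((x : ℤ) - m, (y : ℤ) - m) ∈ A := by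
  unfold ind at h
  by_contra hc
  rw [if_neg hc] at h
  norm_num at h

theorem noNear_ind {A : Set (ℤ × ℤ)} {φ : ℝ → ℝ} {B : ℝ} (h : ¬ HasNear A φ B) (m : ℕ) :
    NoNear φ B (ind A m) := by
  intro x x' y y' a1 a2 a3 a4 hx hy hB hB' hd
  refine h ⟨(x : ℤ) - m, (y : ℤ) - m, (x' : ℤ) - x, (y' : ℤ) - y, by omega, by omega, ?_, ?_, ?_,
    ind_one a1, ?_, ?_, ?_⟩
  · push_cast; exact hB
  · push_cast; exact hB'
  · push_cast; exact hd
  · have := ind_one a2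
    rwa [show (x : ℤ) - m + (x' - x) = x' - m by ring]
  · have := ind_one a3
    rwa [show (y : ℤ) - m + (y' - y) = y' - m by ring]
  · have := ind_one a4
    rwa [show (x : ℤ) - m + (x' - x) = x' - m by ring, show (y : ℤ) - m + (y' - y) = y' - m by ring]

/-- the half-open square of side `2 ^ (k + 1)` about the origin -/
noncomputable def box (k : ℕ) : Finset (ℤ × ℤ) := Ico (-(2 ^ k : ℤ)) (2 ^ k) ×ˢ Ico (-(2 ^ k : ℤ)) (2 ^ k)

theorem card_box_le (A : Set (ℤ × ℤ)) (k : ℕ) :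
    (((box k).filter (· ∈ A)).card : ℝ) ≤ mass (ind A (2 ^ k)) (k + 1) := by
  unfold mass
  rw [← sum_product']
  have e : ∀ p : ℕ × ℕ, ind A (2 ^ k) p.1 p.2 =
      if ((p.1 : ℤ) - (2 ^ k : ℕ), (p.2 : ℤ) - (2 ^ k : ℕ)) ∈ A then 1 else 0 := fun p => rfl
  simp only [e]
  rw [← sum_filter, sum_const, nsmul_eq_mul, mul_one]
  have h : ((box k).filter (· ∈ A)).card ≤
      ((range (2 ^ (k + 1)) ×ˢ range (2 ^ (k + 1))).filter
        (fun p : ℕ × ℕ => ((p.1 : ℤ) - (2 ^ k : ℕ), (p.2 : ℤ) - (2 ^ k : ℕ)) ∈ A)).card := by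
    refine card_le_card_of_injOn (fun p => ((p.1 + 2 ^ k).toNat, (p.2 + 2 ^ k).toNat)) ?_ ?_
    · intro p hp
      rw [mem_coe, mem_filter, box, mem_product, mem_Ico, mem_Ico] at hp
      obtain ⟨⟨⟨h1, h2⟩, h3, h4⟩, hA⟩ := hp
      have e1 : (((p.1 + 2 ^ k).toNat : ℕ) : ℤ) = p.1 + 2 ^ k := Int.toNat_of_nonneg (by linarith)
      have e2 : (((p.2 + 2 ^ k).toNat : ℕ) : ℤ) = p.2 + 2 ^ k := Int.toNat_of_nonneg (by linarith)
      rw [mem_coe, mem_filter, mem_product, mem_range, mem_range]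
      refine ⟨⟨?_, ?_⟩, ?_⟩
      · have : (((p.1 + 2 ^ k).toNat : ℕ) : ℤ) < ((2 ^ (k + 1) : ℕ) : ℤ) := by
          rw [e1]; push_cast; rw [pow_succ]; linarith
        exact_mod_cast this
      · have : (((p.2 + 2 ^ k).toNat : ℕ) : ℤ) < ((2 ^ (k + 1) : ℕ) : ℤ) := by
          rw [e2]; push_cast; rw [pow_succ]; linarith
        exact_mod_cast this
      · show ((((p.1 + 2 ^ k).toNat : ℕ) : ℤ) - (2 ^ k : ℕ), (((p.2 + 2 ^ k).toNat : ℕ) : ℤ) -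
          (2 ^ k : ℕ)) ∈ A
        rw [e1, e2]
        push_cast
        rw [add_sub_cancel_right, add_sub_cancel_right]
        exact hA
    · intro p hp q hq hpq
      rw [mem_coe, mem_filter, box, mem_product, mem_Ico, mem_Ico] at hp hq
      obtain ⟨⟨⟨h1, h2⟩, h3, h4⟩, hA⟩ := hp
      obtain ⟨⟨⟨g1, g2⟩, g3, g4⟩, hB⟩ := hq
      have k1 : (p.1 + 2 ^ k).toNat = (q.1 + 2 ^ k).toNat := congrArg Prod.fst hpq
      have k2 : (p.2 + 2 ^ k).toNat = (q.2 + 2 ^ k).toNat := congrArg Prod.snd hpq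
      have e1 : (((p.1 + 2 ^ k).toNat : ℕ) : ℤ) = p.1 + 2 ^ k := Int.toNat_of_nonneg (by linarith)
      have e2 : (((p.2 + 2 ^ k).toNat : ℕ) : ℤ) = p.2 + 2 ^ k := Int.toNat_of_nonneg (by linarith)
      have e3 : (((q.1 + 2 ^ k).toNat : ℕ) : ℤ) = q.1 + 2 ^ k := Int.toNat_of_nonneg (by linarith)
      have e4 : (((q.2 + 2 ^ k).toNat : ℕ) : ℤ) = q.2 + 2 ^ k := Int.toNat_of_nonneg (by linarith)
      refine Prod.ext ?_ ?_
      · rw [k1, e3] at e1; linarith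
      · rw [k2, e4] at e2; linarith
  exact_mod_cast h

theorem card_box {θ κ B : ℝ} (h0 : 0 < θ) (h1 : θ < 1) (hκ : 0 < κ) (h : 1 < 3 * θ ^ (3 * κ)) :
    ∃ C : ℝ, 0 < C ∧ ∀ A : Set (ℤ × ℤ), ¬ HasNear A (fun t => t ^ θ) B →
      ∀ k : ℕ, (((box k).filter (· ∈ A)).card : ℝ) ≤ C * ((k : ℝ) + 2) ^ (-κ) * 4 ^ (k + 1) := by
  obtain ⟨C, hC, hm⟩ := mass_le (B := B) h0 h1 hκ h
  refine ⟨C, hC, ?_⟩
  intro A hA k
  refine (card_box_le A k).trans ?_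
  have := hm (ind A (2 ^ k)) (ind01 A _) (noNear_ind hA _) (k + 1)
  push_cast at this
  rw [show (k : ℝ) + 1 + 1 = k + 2 by ring] at this
  exact this

theorem mem_box_of_le {p : ℤ × ℤ} {k : ℕ} (h1 : |p.1| < 2 ^ k) (h2 : |p.2| < 2 ^ k) :
    p ∈ box k := by
  rw [abs_lt] at h1 h2
  rw [box, mem_product, mem_Ico, mem_Ico]
  exact ⟨⟨h1.1.le, h1.2⟩, h2.1.le, h2.2⟩

end

theorem HasNear.mono {A : Set (ℤ × ℤ)} {θ θ' B B' : ℝ} (hθ : θ ≤ θ') (hB : B' ≤ B)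
    (h : HasNear A (fun t => t ^ θ) B) : HasNear A (fun t => t ^ θ') B' := by
  obtain ⟨x, y, a, b, ha, hb, h1, h2, h3, h4⟩ := h
  refine ⟨x, y, a, b, ha, hb, hB.trans h1, hB.trans h2, h3.trans ?_, h4⟩
  apply Real.rpow_le_rpow_of_exponent_le _ hθ
  have h5 : (1 : ℝ) ≤ a := by exact_mod_cast ha
  have h6 : (1 : ℝ) ≤ b := by exact_mod_cast hb
  exact le_min h5 h6

theorem ncard_le_box (A : Set (ℤ × ℤ)) [DecidablePred (· ∈ A)] {N k : ℕ} (h : N < 2 ^ k) :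
    Set.ncard {p : ℤ × ℤ | p ∈ A ∧ |p.1| ≤ N ∧ |p.2| ≤ N} ≤ ((box k).filter (· ∈ A)).card := by
  rw [← Set.ncard_coe_finset]
  apply Set.ncard_le_ncard _ (Finset.finite_toSet _)
  rintro p ⟨hp, hp1, hp2⟩
  rw [mem_coe, mem_filter]
  have g2' : (N : ℤ) < 2 ^ k := by exact_mod_cast h
  exact ⟨mem_box_of_le (lt_of_le_of_lt hp1 g2') (lt_of_le_of_lt hp2 g2'), hp⟩

end Pool.Agent.NSq
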