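import Pool.Agent.NSq.Step

/-!
# The recursion over the scales
-/

namespace Pool.Agent.NSq
open Finset

variable {a : ℕ → ℕ → ℝ} {n : ℕ}

section
variable (ha : ∀ x y, 0 ≤ a x y)
include ha

theorem G_step {E s s' t tm : ℕ} (hN : NSF a s tm) (hst : s + 1 ≤ tm)
    (htm : tm ≤ t) (hts : t ≤ s') (h' : s' ≤ E) :
    G a n E s' t ≤ (((1 + 1 / 2 ^ (s' - t)) / 3) ^ n + 9 / 2 ^ (t - tm)) * G a n E s tm := by
  have hs : s ≤ t := by omega
  have h : s ≤ s' := by omega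
  have h1 := F_step (n := n) ha hN hst hs htm h h' (hts.trans h')
  unfold G
  push_cast at h1
  have e1 : (2 : ℝ) ^ (s' * n) = (2 ^ (s' - s)) ^ n * 2 ^ (s * n) := by
    rw [← pow_mul, ← pow_add]; congr 1
    rw [← add_mul]; congr 1; omega
  have e2 : (2 : ℝ) ^ (2 * t) = (2 ^ (t - tm)) ^ 2 * 2 ^ (2 * tm) := by
    rw [← pow_mul, ← pow_add]; congr 1; omega
  have e3 : (2 : ℝ) ^ (s' - s) = 2 ^ (s' - t) * 2 ^ (t - s) := by
    rw [← pow_add]; congr 1; omega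
  set k : ℝ := 2 ^ (s' - s) with hk
  set L : ℝ := 2 ^ (t - tm) with hL
  set q : ℝ := 2 ^ (s' - t) with hq
  set K₂ : ℝ := 2 ^ (t - s) with hK₂
  have hk0 : 0 < k := by positivity
  have hL0 : 0 < L := by positivity
  have hq0 : 0 < q := by positivity
  have hK0 : 0 < K₂ := by positivity
  have e4 : (k + K₂) / 3 = k * ((1 + 1 / q) / 3) := by
    rw [e3]; field_simp
  rw [e1, e2, div_le_iff₀ (by positivity)]
  refine h1.trans (le_of_eq ?_)
  rw [e4, mul_pow]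
  field_simp

theorem G_y_le {E s t tm : ℕ} (htm : tm ≤ t) (ht : t ≤ E) : G a n E s t ≤ G a n E s tm := by
  have h1 := F_y_le (n := n) (s := s) ha htm ht
  unfold G
  push_cast at h1
  have e2 : (2 : ℝ) ^ (2 * t) = (2 ^ (t - tm)) ^ 2 * 2 ^ (2 * tm) := by
    rw [← pow_mul, ← pow_add]; congr 1; omega
  set L : ℝ := 2 ^ (t - tm) with hL
  have hL0 : 0 < L := by positivity
  rw [e2, div_le_iff₀ (by positivity)]
  refine h1.trans (le_of_eq ?_)
  field_simp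

theorem G_x_le {E s s' t : ℕ} (h : s ≤ s') (h' : s' ≤ E) : G a n E s' t ≤ G a n E s t := by
  have h1 := F_x_le (n := n) (t := t) ha h h'
  unfold G
  push_cast at h1
  have e1 : (2 : ℝ) ^ (s' * n) = (2 ^ (s' - s)) ^ n * 2 ^ (s * n) := by
    rw [← pow_mul, ← pow_add]; congr 1
    rw [← add_mul]; congr 1; omega
  set k : ℝ := 2 ^ (s' - s) with hk
  have hk0 : 0 < k := by positivity
  rw [e1, div_le_iff₀ (by positivity)]
  refine h1.trans (le_of_eq ?_)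
  field_simp

theorem G_le_zero {E s t : ℕ} (hs : s ≤ E) (ht : t ≤ E) : G a n E s t ≤ G a n E 0 0 :=
  (G_y_le ha (Nat.zero_le t) ht).trans (G_x_le ha (Nat.zero_le s) hs)

end

/-- the total mass -/
def mass (a : ℕ → ℕ → ℝ) (E : ℕ) : ℝ := ∑ x ∈ range (2 ^ E), ∑ y ∈ range (2 ^ E), a x y

theorem cell_zero (i : ℕ) : cell 0 i = {i} := by
  ext x; rw [mem_cell]; simp

theorem G_zero (h01 : ∀ x y, a x y = 0 ∨ a x y = 1) (E : ℕ) : G a n E 0 0 = mass a E := by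
  unfold G F mass
  simp only [Nat.sub_zero, zero_mul, mul_zero, pow_zero, mul_one, div_one]
  refine sum_congr rfl fun x _ => sum_congr rfl fun y _ => ?_
  simp only [cell_zero, T, Z, sum_singleton]
  rcases h01 x y with h | h
  · rw [h]; simp
  · rw [h]; simp

theorem cell_top (E : ℕ) : cell E 0 = range (2 ^ E) := by
  ext x; rw [cell, mem_Ico, mem_range]; simp

theorem mass_pow_le (ha : ∀ x y, 0 ≤ a x y) (E : ℕ) :
    mass a E ^ (3 * (n + 1)) ≤ (2 ^ E) ^ (6 * n + 4) * G a n E E E := by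
  set N : ℝ := 2 ^ E with hN
  have hN0 : 0 < N := by positivity
  set X := range (2 ^ E) with hX
  have hcX : (X.card : ℝ) = N := by rw [hX, card_range, hN]; push_cast; rfl
  have hF : F a n E E E = ∑ x ∈ Fintype.piFinset (fun _ : Fin (n + 1) => X), W a n X x ^ 3 := by
    unfold F
    simp only [Nat.sub_self, pow_zero, range_one, sum_singleton, cell_top]
    rw [T_swap]
    refine sum_congr rfl fun x _ => ?_
    ring
  have h1 : (∑ x ∈ Fintype.piFinset (fun _ : Fin (n + 1) => X), W a n X x) =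
      ∑ y ∈ X, (∑ x ∈ X, a x y) ^ (n + 1) := by
    unfold W
    rw [sum_comm]
    refine sum_congr rfl fun y _ => ?_
    rw [sum_pow']
  have h2 : mass a E ^ (n + 1) ≤ N ^ n * ∑ y ∈ X, (∑ x ∈ X, a x y) ^ (n + 1) := by
    have := pow_sum_le_card_mul_sum_pow (s := X) (f := fun y => ∑ x ∈ X, a x y)
      (fun y _ => sum_nonneg fun x _ => ha _ _) n
    rw [hcX] at this
    unfold mass
    rw [sum_comm]
    exact this
  have h3 : (∑ x ∈ Fintype.piFinset (fun _ : Fin (n + 1) => X), W a n X x) ^ 3 ≤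
      (N ^ (n + 1)) ^ 2 * F a n E E E := by
    have := pow_sum_le_card_mul_sum_pow (s := Fintype.piFinset (fun _ : Fin (n + 1) => X))
      (f := fun x => W a n X x) (fun x _ => W_nonneg ha _ _) 2
    rw [Fintype.card_piFinset_const] at this
    push_cast at this
    rw [hcX] at this
    rw [hF]
    exact this
  have hm : 0 ≤ mass a E := sum_nonneg fun _ _ => sum_nonneg fun _ _ => ha _ _
  have h4 : mass a E ^ (3 * (n + 1)) ≤ (N ^ n) ^ 3 * ((N ^ (n + 1)) ^ 2 * F a n E E E) := by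
    calc mass a E ^ (3 * (n + 1)) = (mass a E ^ (n + 1)) ^ 3 := by rw [← pow_mul]; congr 1; ring
      _ ≤ (N ^ n * ∑ y ∈ X, (∑ x ∈ X, a x y) ^ (n + 1)) ^ 3 :=
        pow_le_pow_left₀ (pow_nonneg hm _) h2 3
      _ = (N ^ n) ^ 3 * (∑ x ∈ Fintype.piFinset (fun _ : Fin (n + 1) => X), W a n X x) ^ 3 := by
        rw [mul_pow, h1]
      _ ≤ _ := mul_le_mul_of_nonneg_left h3 (by positivity)
  have h5 : F a n E E E = N ^ (n + 2) * G a n E E E := by
    unfold G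
    have : (2 : ℝ) ^ (E * n) * 2 ^ (2 * E) = N ^ (n + 2) := by
      rw [hN, ← pow_mul, ← pow_add]; congr 1; ring
    rw [this]
    field_simp
  rw [h5] at h4
  refine h4.trans (le_of_eq ?_)
  ring

/-! ### The numerical recursion -/

open Filter Topology in
theorem recursion {g θ Γ C₀ : ℝ} (hg : 0 < g) (hθ : 0 < θ) (hΓ : 0 < Γ) (hlt : g < θ ^ Γ)
    (e₀ : ℕ) : ∃ C : ℝ, 0 < C ∧ ∀ (E : ℕ) (V : ℕ → ℝ) (V₀ : ℝ) (σ : ℕ → ℕ), 0 ≤ V₀ →
      (∀ e ≤ E, V e ≤ V₀) → (∀ e, e₀ ≤ e → e ≤ E → V e ≤ g * V (σ e)) →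
      (∀ e, e₀ ≤ e → σ e < e) → (∀ e, e₀ ≤ e → θ * (e + 1) - C₀ ≤ (σ e : ℝ) + 1) →
      ∀ e ≤ E, V e ≤ C * ((e : ℝ) + 1) ^ (-Γ) * V₀ := by
  have ht : Tendsto (fun e : ℕ => (θ - C₀ / ((e : ℝ) + 1)) ^ Γ) atTop (𝓝 ((θ - 0) ^ Γ)) := by
    refine Tendsto.rpow_const ?_ (Or.inr hΓ.le)
    refine tendsto_const_nhds.sub ?_
    exact Tendsto.div_atTop tendsto_const_nhds
      (tendsto_atTop_add_const_right _ _ tendsto_natCast_atTop_atTop)
  have ht' : Tendsto (fun e : ℕ => θ - C₀ / ((e : ℝ) + 1)) atTop (𝓝 (θ - 0)) := by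
    refine tendsto_const_nhds.sub ?_
    exact Tendsto.div_atTop tendsto_const_nhds
      (tendsto_atTop_add_const_right _ _ tendsto_natCast_atTop_atTop)
  rw [sub_zero] at ht ht'
  have h1 := (ht.eventually (lt_mem_nhds hlt)).and (ht'.eventually (lt_mem_nhds hθ))
  obtain ⟨e₂, he₂⟩ := eventually_atTop.1 h1
  set e₁ := max e₀ e₂ with he₁
  refine ⟨((e₁ : ℝ) + 1) ^ Γ, by positivity, ?_⟩
  intro E V V₀ σ hV₀ hb hs hσ hσ' e
  induction e using Nat.strong_induction_on with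
  | _ e ih =>
    intro heE
    have hpe : (0 : ℝ) < (e : ℝ) + 1 := by positivity
    rcases Nat.lt_or_ge e e₁ with hlt' | hge
    · refine (hb e heE).trans ?_
      have h2 : (1 : ℝ) ≤ ((e₁ : ℝ) + 1) ^ Γ * ((e : ℝ) + 1) ^ (-Γ) := by
        rw [Real.rpow_neg hpe.le, ← div_eq_mul_inv, one_le_div (by positivity)]
        apply Real.rpow_le_rpow hpe.le _ hΓ.le
        have : (e : ℝ) < e₁ := by exact_mod_cast hlt'
        linarith
      calc V₀ = 1 * V₀ := (one_mul _).symm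
        _ ≤ _ := mul_le_mul_of_nonneg_right h2 hV₀
    · have hge0 : e₀ ≤ e := le_trans (le_max_left _ _) hge
      have hge2 : e₂ ≤ e := le_trans (le_max_right _ _) hge
      obtain ⟨h2, h3⟩ := he₂ e hge2
      have h4 := ih (σ e) (hσ e hge0) ((hσ e hge0).le.trans heE)
      have h5 : θ * (e + 1) - C₀ = ((e : ℝ) + 1) * (θ - C₀ / ((e : ℝ) + 1)) := by
        field_simp
      have h6 : 0 < θ * ((e : ℝ) + 1) - C₀ := by
        rw [h5]; exact mul_pos hpe h3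
      have h7 : ((σ e : ℝ) + 1) ^ (-Γ) ≤ (θ * (e + 1) - C₀) ^ (-Γ) :=
        Real.rpow_le_rpow_of_nonpos h6 (hσ' e hge0) (by linarith)
      have h8 : (θ * ((e : ℝ) + 1) - C₀) ^ (-Γ) =
          ((e : ℝ) + 1) ^ (-Γ) * ((θ - C₀ / ((e : ℝ) + 1)) ^ Γ)⁻¹ := by
        rw [h5, Real.mul_rpow hpe.le h3.le, Real.rpow_neg h3.le]
      have h9 : g * ((θ - C₀ / ((e : ℝ) + 1)) ^ Γ)⁻¹ ≤ 1 := by
        rw [← div_eq_mul_inv, div_le_one (by positivity)]
        exact h2.le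
      have hC : (0 : ℝ) ≤ ((e₁ : ℝ) + 1) ^ Γ := by positivity
      calc V e ≤ g * V (σ e) := hs e hge0 heE
        _ ≤ g * (((e₁ : ℝ) + 1) ^ Γ * ((σ e : ℝ) + 1) ^ (-Γ) * V₀) :=
          mul_le_mul_of_nonneg_left h4 hg.le
        _ ≤ g * (((e₁ : ℝ) + 1) ^ Γ * (((e : ℝ) + 1) ^ (-Γ) *
            ((θ - C₀ / ((e : ℝ) + 1)) ^ Γ)⁻¹) * V₀) := by
          rw [← h8]
          gcongr
        _ = (g * ((θ - C₀ / ((e : ℝ) + 1)) ^ Γ)⁻¹) *
            (((e₁ : ℝ) + 1) ^ Γ * ((e : ℝ) + 1) ^ (-Γ) * V₀) := by ring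
        _ ≤ 1 * (((e₁ : ℝ) + 1) ^ Γ * ((e : ℝ) + 1) ^ (-Γ) * V₀) := by
          apply mul_le_mul_of_nonneg_right h9
          positivity
        _ = _ := one_mul _

open Filter Topology in
/-- the choice of the parameters -/
theorem exists_params {θ κ : ℝ} (h0 : 0 < θ) (h : 1 < 3 * θ ^ (3 * κ)) :
    ∃ n l : ℕ, ((1 + 1 / 2 ^ l) / 3) ^ n + 9 / 2 ^ l < θ ^ (κ * (3 * n + 2)) := by
  obtain ⟨n, hn⟩ := pow_unbounded_of_one_lt (θ ^ (-(2 * κ))) h
  have h1 : (1 / 3 : ℝ) ^ n < θ ^ (κ * (3 * n + 2)) := by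
    rw [mul_pow, ← Real.rpow_natCast (θ ^ (3 * κ)), ← Real.rpow_mul h0.le] at hn
    have e1 : θ ^ (κ * (3 * n + 2)) = θ ^ (3 * κ * (n : ℝ)) * θ ^ (2 * κ) := by
      rw [← Real.rpow_add h0]; congr 1; ring
    have e2 : θ ^ (-(2 * κ)) * θ ^ (2 * κ) = 1 := by
      rw [← Real.rpow_add h0]; simp
    have hp : 0 < θ ^ (2 * κ) := by positivity
    have h2 : 1 < 3 ^ n * θ ^ (3 * κ * (n : ℝ)) * θ ^ (2 * κ) := by
      rw [← e2]; exact mul_lt_mul_of_pos_right hn hp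
    rw [e1, one_div, inv_pow, inv_lt_iff_one_lt_mul₀ (by positivity)]
    calc (1 : ℝ) < _ := h2
      _ = _ := by ring
  refine ⟨n, ?_⟩
  have hz : Tendsto (fun l : ℕ => (1 : ℝ) / 2 ^ l) atTop (𝓝 0) := by
    have := tendsto_pow_atTop_nhds_zero_of_lt_one (r := (1 / 2 : ℝ)) (by norm_num) (by norm_num)
    refine this.congr fun l => ?_
    rw [one_div, one_div, inv_pow]
  have ht : Tendsto (fun l : ℕ => ((1 + (1 : ℝ) / 2 ^ l) / 3) ^ n + 9 * (1 / 2 ^ l)) atTop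
      (𝓝 (((1 + 0) / 3) ^ n + 9 * 0)) :=
    (((tendsto_const_nhds.add hz).div_const 3).pow n).add (hz.const_mul 9)
  rw [add_zero, mul_zero, add_zero] at ht
  obtain ⟨l, hl⟩ := (ht.eventually (gt_mem_nhds h1)).exists
  refine ⟨l, ?_⟩
  rw [show (9 : ℝ) / 2 ^ l = 9 * (1 / 2 ^ l) by ring]
  exact hl

end Pool.Agent.NSq
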