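import Pool.Agent.NSq.Count

/-!
# The step between two scales
-/

namespace Pool.Agent.NSq
open Finset

variable {a : ℕ → ℕ → ℝ} {n : ℕ}

section
variable (ha : ∀ x y, 0 ≤ a x y)
include ha

/-- one big cell, all scales of ordinates refined -/
theorem T_step {s s' t tm : ℕ} (hN : NSF a s tm) (hst : s + 1 ≤ tm) (hs : s ≤ t)
    (htm : tm ≤ t) (h : s ≤ s') (i j : ℕ) :
    T a n (cell s' i) (cell t j) (cell t j) (cell t j) ≤
      ((((2 ^ (s' - s) : ℕ) + (2 ^ (t - s) : ℕ) : ℝ) / 3) ^ n * ((2 ^ (t - tm) : ℕ) : ℝ) ^ 2 +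
        9 * ((2 ^ (s' - s) : ℕ) : ℝ) ^ n * ((2 ^ (t - tm) : ℕ) : ℝ)) *
      ∑ r ∈ range (2 ^ (s' - s)), ∑ l ∈ range (2 ^ (t - tm)),
        T a n (cell s (i * 2 ^ (s' - s) + r)) (cell tm (j * 2 ^ (t - tm) + l))
          (cell tm (j * 2 ^ (t - tm) + l)) (cell tm (j * 2 ^ (t - tm) + l)) := by
  set k := 2 ^ (s' - s) with hk
  set L := 2 ^ (t - tm) with hL
  set K₂ := 2 ^ (t - s) with hK₂
  set d := fun l => cell tm (j * L + l) with hd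
  set c := fun r => cell s (i * k + r) with hc
  set α : ℝ := (((k : ℕ) + (K₂ : ℕ) : ℝ) / 3) ^ n with hα
  have hα0 : 0 ≤ α := by rw [hα]; positivity
  rw [T_split htm]
  have key : ∀ l₁ ∈ range L, ∀ l₂ ∈ range L, ∀ l₃ ∈ range L,
      T a n (cell s' i) (d l₁) (d l₂) (d l₃) ≤
        (α + (k : ℝ) ^ n * (clo l₁ l₂ + clo l₁ l₃ + clo l₂ l₃)) *
          ∑ r ∈ range k, T a n (c r) (d l₁) (d l₂) (d l₃) := by
    intro l₁ h1 l₂ h2 l₃ h3
    rw [mem_range] at h1 h2 h3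
    have hS : 0 ≤ ∑ r ∈ range k, T a n (c r) (d l₁) (d l₂) (d l₃) :=
      sum_nonneg fun r _ => T_nonneg ha _ _ _ _
    have hk0 : (0 : ℝ) ≤ (k : ℝ) ^ n := by positivity
    by_cases hb : clo l₁ l₂ = 0 ∧ clo l₁ l₃ = 0 ∧ clo l₂ l₃ = 0
    · obtain ⟨b1, b2, b3⟩ := hb
      rw [b1, b2, b3, add_zero, add_zero, mul_zero, add_zero]
      exact T_x_good ha hN hst hs htm h i j h1 h2 h3 b1 b2 b3
    · have h1c : (1 : ℝ) ≤ clo l₁ l₂ + clo l₁ l₃ + clo l₂ l₃ := by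
        have c01 : ∀ l m, clo l m = 0 ∨ clo l m = 1 := by
          intro l m; unfold clo; split_ifs <;> simp
        have n1 := clo_nonneg l₁ l₂
        have n2 := clo_nonneg l₁ l₃
        have n3 := clo_nonneg l₂ l₃
        rcases c01 l₁ l₂ with q1 | q1
        · rcases c01 l₁ l₃ with q2 | q2
          · rcases c01 l₂ l₃ with q3 | q3
            · exact absurd ⟨q1, q2, q3⟩ hb
            · rw [q3]; linarith
          · rw [q2]; linarith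
        · rw [q1]; linarith
      refine (T_x_le ha h i _ _ _).trans (mul_le_mul_of_nonneg_right ?_ hS)
      calc (k : ℝ) ^ n = (k : ℝ) ^ n * 1 := (mul_one _).symm
        _ ≤ (k : ℝ) ^ n * (clo l₁ l₂ + clo l₁ l₃ + clo l₂ l₃) :=
          mul_le_mul_of_nonneg_left h1c hk0
        _ ≤ _ := le_add_of_nonneg_left hα0
  have step1 : ∑ l₁ ∈ range L, ∑ l₂ ∈ range L, ∑ l₃ ∈ range L,
      T a n (cell s' i) (d l₁) (d l₂) (d l₃) ≤
      ∑ l₁ ∈ range L, ∑ l₂ ∈ range L, ∑ l₃ ∈ range L,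
        (α + (k : ℝ) ^ n * (clo l₁ l₂ + clo l₁ l₃ + clo l₂ l₃)) *
          ∑ r ∈ range k, T a n (c r) (d l₁) (d l₂) (d l₃) :=
    sum_le_sum fun l₁ h1 => sum_le_sum fun l₂ h2 => sum_le_sum fun l₃ h3 => key l₁ h1 l₂ h2 l₃ h3
  refine step1.trans ?_
  set v := fun r l => T a n (c r) (d l) (d l) (d l) with hv
  have hv0 : ∀ r l, 0 ≤ v r l := fun r l => T_nonneg ha _ _ _ _
  have step2 : ∑ l₁ ∈ range L, ∑ l₂ ∈ range L, ∑ l₃ ∈ range L,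
        (α + (k : ℝ) ^ n * (clo l₁ l₂ + clo l₁ l₃ + clo l₂ l₃)) *
          ∑ r ∈ range k, T a n (c r) (d l₁) (d l₂) (d l₃) ≤
      ∑ l₁ ∈ range L, ∑ l₂ ∈ range L, ∑ l₃ ∈ range L, ∑ r ∈ range k,
        (α + (k : ℝ) ^ n * (clo l₁ l₂ + clo l₁ l₃ + clo l₂ l₃)) *
          ((v r l₁ + v r l₂ + v r l₃) / 3) := by
    refine sum_le_sum fun l₁ _ => sum_le_sum fun l₂ _ => sum_le_sum fun l₃ _ => ?_
    rw [mul_sum]
    refine sum_le_sum fun r _ => mul_le_mul_of_nonneg_left (T_le ha _ _ _ _) ?_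
    have n1 := clo_nonneg l₁ l₂
    have n2 := clo_nonneg l₁ l₃
    have n3 := clo_nonneg l₂ l₃
    positivity
  refine step2.trans ?_
  have step3 : ∑ l₁ ∈ range L, ∑ l₂ ∈ range L, ∑ l₃ ∈ range L, ∑ r ∈ range k,
        (α + (k : ℝ) ^ n * (clo l₁ l₂ + clo l₁ l₃ + clo l₂ l₃)) *
          ((v r l₁ + v r l₂ + v r l₃) / 3) =
      ∑ r ∈ range k, ∑ l₁ ∈ range L, ∑ l₂ ∈ range L, ∑ l₃ ∈ range L,
        (α + (k : ℝ) ^ n * (clo l₁ l₂ + clo l₁ l₃ + clo l₂ l₃)) *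
          ((v r l₁ + v r l₂ + v r l₃) / 3) := by
    rw [sum_comm (s := range k)]
    refine sum_congr rfl fun l₁ _ => ?_
    rw [sum_comm (s := range k)]
    refine sum_congr rfl fun l₂ _ => ?_
    rw [sum_comm (s := range k)]
  rw [step3, mul_sum]
  refine sum_le_sum fun r _ => ?_
  have e : ∀ l₁ l₂ l₃ : ℕ, (α + (k : ℝ) ^ n * (clo l₁ l₂ + clo l₁ l₃ + clo l₂ l₃)) *
      ((v r l₁ + v r l₂ + v r l₃) / 3) = α * ((v r l₁ + v r l₂ + v r l₃) / 3) +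
      (k : ℝ) ^ n * (clo l₁ l₂ * ((v r l₁ + v r l₂ + v r l₃) / 3)) +
      (k : ℝ) ^ n * (clo l₁ l₃ * ((v r l₁ + v r l₂ + v r l₃) / 3)) +
      (k : ℝ) ^ n * (clo l₂ l₃ * ((v r l₁ + v r l₂ + v r l₃) / 3)) := by
    intro l₁ l₂ l₃; ring
  have a0 := all3 (v := v r) L
  have a1 := clo12 (hv0 r) L
  have a2 := clo13 (hv0 r) L
  have a3 := clo23 (hv0 r) L
  have hk0 : (0 : ℝ) ≤ (k : ℝ) ^ n := by positivity
  have b1 := mul_le_mul_of_nonneg_left a1 hk0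
  have b2 := mul_le_mul_of_nonneg_left a2 hk0
  have b3 := mul_le_mul_of_nonneg_left a3 hk0
  calc ∑ l₁ ∈ range L, ∑ l₂ ∈ range L, ∑ l₃ ∈ range L,
        (α + (k : ℝ) ^ n * (clo l₁ l₂ + clo l₁ l₃ + clo l₂ l₃)) *
          ((v r l₁ + v r l₂ + v r l₃) / 3) =
      α * (∑ l₁ ∈ range L, ∑ l₂ ∈ range L, ∑ l₃ ∈ range L, (v r l₁ + v r l₂ + v r l₃) / 3) +
      (k : ℝ) ^ n * (∑ l₁ ∈ range L, ∑ l₂ ∈ range L, ∑ l₃ ∈ range L,
        clo l₁ l₂ * ((v r l₁ + v r l₂ + v r l₃) / 3)) +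
      (k : ℝ) ^ n * (∑ l₁ ∈ range L, ∑ l₂ ∈ range L, ∑ l₃ ∈ range L,
        clo l₁ l₃ * ((v r l₁ + v r l₂ + v r l₃) / 3)) +
      (k : ℝ) ^ n * (∑ l₁ ∈ range L, ∑ l₂ ∈ range L, ∑ l₃ ∈ range L,
        clo l₂ l₃ * ((v r l₁ + v r l₂ + v r l₃) / 3)) := by
        simp only [e, sum_add_distrib, mul_sum]
    _ ≤ α * ((L : ℝ) ^ 2 * ∑ l ∈ range L, v r l) +
      (k : ℝ) ^ n * (3 * L * ∑ l ∈ range L, v r l) +
      (k : ℝ) ^ n * (3 * L * ∑ l ∈ range L, v r l) +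
      (k : ℝ) ^ n * (3 * L * ∑ l ∈ range L, v r l) := by
        rw [a0]; linarith
    _ = (α * (L : ℝ) ^ 2 + 9 * (k : ℝ) ^ n * L) * ∑ l ∈ range L, v r l := by ring

/-- monotonicity in the scale of the ordinates, one cell -/
theorem T_y_le {t tm : ℕ} (htm : tm ≤ t) (c : Finset ℕ) (j : ℕ) :
    T a n c (cell t j) (cell t j) (cell t j) ≤ ((2 ^ (t - tm) : ℕ) : ℝ) ^ 2 *
      ∑ l ∈ range (2 ^ (t - tm)), T a n c (cell tm (j * 2 ^ (t - tm) + l))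
          (cell tm (j * 2 ^ (t - tm) + l)) (cell tm (j * 2 ^ (t - tm) + l)) := by
  rw [T_split htm, ← all3]
  exact sum_le_sum fun l₁ _ => sum_le_sum fun l₂ _ => sum_le_sum fun l₃ _ => T_le ha _ _ _ _

end

/-! ### All cells in the square of side `2 ^ E` -/

/-- the total count with cells of levels `s` and `t` -/
def F (a : ℕ → ℕ → ℝ) (n E s t : ℕ) : ℝ :=
  ∑ i ∈ range (2 ^ (E - s)), ∑ j ∈ range (2 ^ (E - t)), T a n (cell s i) (cell t j) (cell t j) (cell t j)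

/-- the normalised count -/
noncomputable def G (a : ℕ → ℕ → ℝ) (n E s t : ℕ) : ℝ := F a n E s t / (2 ^ (s * n) * 2 ^ (2 * t))

section
variable (ha : ∀ x y, 0 ≤ a x y)
include ha

theorem F_nonneg (E s t : ℕ) : 0 ≤ F a n E s t :=
  sum_nonneg fun _ _ => sum_nonneg fun _ _ => T_nonneg ha _ _ _ _

theorem G_nonneg (E s t : ℕ) : 0 ≤ G a n E s t :=
  div_nonneg (F_nonneg ha _ _ _) (by positivity)

omit ha in
theorem pow_split {E s s' : ℕ} (h : s ≤ s') (h' : s' ≤ E) :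
    (2 : ℕ) ^ (E - s) = 2 ^ (E - s') * 2 ^ (s' - s) := by
  rw [← pow_add]; congr 1; omega

theorem F_step {E s s' t tm : ℕ} (hN : NSF a s tm) (hst : s + 1 ≤ tm) (hs : s ≤ t)
    (htm : tm ≤ t) (h : s ≤ s') (h' : s' ≤ E) (ht : t ≤ E) :
    F a n E s' t ≤
      ((((2 ^ (s' - s) : ℕ) + (2 ^ (t - s) : ℕ) : ℝ) / 3) ^ n * ((2 ^ (t - tm) : ℕ) : ℝ) ^ 2 +
        9 * ((2 ^ (s' - s) : ℕ) : ℝ) ^ n * ((2 ^ (t - tm) : ℕ) : ℝ)) * F a n E s tm := by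
  unfold F
  rw [pow_split h h', pow_split htm ht, index_split, mul_sum]
  refine sum_le_sum fun i _ => ?_
  have e : ∀ i' : ℕ, ∑ j ∈ range (2 ^ (E - t) * 2 ^ (t - tm)),
      T a n (cell s i') (cell tm j) (cell tm j) (cell tm j) =
      ∑ j ∈ range (2 ^ (E - t)), ∑ l ∈ range (2 ^ (t - tm)), T a n (cell s i')
        (cell tm (j * 2 ^ (t - tm) + l)) (cell tm (j * 2 ^ (t - tm) + l))
        (cell tm (j * 2 ^ (t - tm) + l)) := fun i' => index_split _ _ _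
  simp only [e]
  rw [sum_comm (s := range (2 ^ (s' - s))), mul_sum]
  exact sum_le_sum fun j _ => T_step ha hN hst hs htm h i j

theorem F_y_le {E s t tm : ℕ} (htm : tm ≤ t) (ht : t ≤ E) :
    F a n E s t ≤ ((2 ^ (t - tm) : ℕ) : ℝ) ^ 2 * F a n E s tm := by
  unfold F
  rw [pow_split htm ht, mul_sum]
  refine sum_le_sum fun i _ => ?_
  rw [index_split, mul_sum]
  exact sum_le_sum fun j _ => T_y_le ha htm _ j

theorem F_x_le {E s s' t : ℕ} (h : s ≤ s') (h' : s' ≤ E) :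
    F a n E s' t ≤ ((2 ^ (s' - s) : ℕ) : ℝ) ^ n * F a n E s t := by
  unfold F
  rw [pow_split h h', index_split, mul_sum]
  refine sum_le_sum fun i _ => ?_
  rw [sum_comm (s := range (2 ^ (s' - s))), mul_sum]
  exact sum_le_sum fun j _ => T_x_le ha h i _ _ _

end

end Pool.Agent.NSq
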